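import Mathlib

/-! Isomorphism of finite group presentations is a recursively enumerable relation. -/

namespace Pool.Agent.H377R3.IsoRE

abbrev W := List (ℕ × Bool)
abbrev Pres := ℕ × List W

/-- filter a word to letters below `n`. -/
def filt (n : ℕ) (w : W) : List (Fin n × Bool) :=
  w.filterMap (fun q => if h : q.1 < n then some ((⟨q.1, h⟩ : Fin n), q.2) else none)

/-- relators of the finite presentation -/
def Rels (a : Pres) : Set (FreeGroup (Fin a.1)) :=
  {g | ∃ w ∈ a.2, g = FreeGroup.mk (filt a.1 w)}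

/-- all relators, over the free group on `ℕ` -/
def rel (a : Pres) (t : Bool × ℕ) : W :=
  bif t.1 then a.2.getD t.2 [] else [(a.1 + t.2, true)]

def RS (a : Pres) : Set (FreeGroup ℕ) := Set.range (fun t => FreeGroup.mk (rel a t))

def N (a : Pres) : Subgroup (FreeGroup ℕ) := Subgroup.normalClosure (RS a)

instance (a : Pres) : (N a).Normal := Subgroup.normalClosure_normal

theorem mem_N_rel (a : Pres) (t : Bool × ℕ) : FreeGroup.mk (rel a t) ∈ N a :=
  Subgroup.subset_normalClosure ⟨t, rfl⟩

theorem mem_N_of_mem {a : Pres} {w : W} (h : w ∈ a.2) : FreeGroup.mk w ∈ N a := by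
  obtain ⟨k, hk, rfl⟩ := List.mem_iff_getElem.1 h
  have := mem_N_rel a (true, k)
  rw [rel, cond_true, List.getD_eq_getElem _ _ hk] at this
  exact this

theorem of_mem_N {a : Pres} {i : ℕ} (h : a.1 ≤ i) : FreeGroup.of i ∈ N a := by
  have := mem_N_rel a (false, i - a.1)
  simpa [rel, Nat.add_sub_cancel' h, FreeGroup.of] using this

/-- a hom kills `N a` iff it kills the relators -/
theorem N_le_ker {a : Pres} {G : Type*} [Group G] (f : FreeGroup ℕ →* G)
    (h1 : ∀ w ∈ a.2, f (FreeGroup.mk w) = 1) (h2 : ∀ i, a.1 ≤ i → f (FreeGroup.of i) = 1) :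
    N a ≤ f.ker := by
  apply Subgroup.normalClosure_le_normal
  rintro _ ⟨t, rfl⟩
  simp only [SetLike.mem_coe, MonoidHom.mem_ker]
  rcases t with ⟨b, k⟩
  cases b
  · exact h2 (a.1 + k) (Nat.le_add_right _ _)
  · simp only [rel, cond_true]
    by_cases hk : k < a.2.length
    · rw [List.getD_eq_getElem _ _ hk]
      exact h1 _ (List.getElem_mem hk)
    · rw [List.getD_eq_default _ _ (not_lt.1 hk)]
      exact f.map_one

/-! ### the isomorphism with the quotient of the free group on `ℕ` -/

theorem mk_cons {α : Type*} (q : α × Bool) (w : List (α × Bool)) :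
    FreeGroup.mk (q :: w) = FreeGroup.mk [q] * FreeGroup.mk w := by
  rw [FreeGroup.mul_mk]; rfl

theorem mk_single {α : Type*} (i : α) (b : Bool) :
    FreeGroup.mk [(i, b)] = bif b then FreeGroup.of i else (FreeGroup.of i)⁻¹ := by
  cases b
  · rfl
  · rfl

noncomputable def toPG (a : Pres) : FreeGroup ℕ →* PresentedGroup (Rels a) :=
  FreeGroup.lift (fun i => if h : i < a.1 then PresentedGroup.of ⟨i, h⟩ else 1)

theorem toPG_mk (a : Pres) (w : W) :
    toPG a (FreeGroup.mk w) = PresentedGroup.mk (Rels a) (FreeGroup.mk (filt a.1 w)) := by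
  induction w with
  | nil => exact (toPG a).map_one.trans (MonoidHom.map_one _).symm
  | cons q w ih =>
    rw [mk_cons, map_mul, ih]
    obtain ⟨i, b⟩ := q
    by_cases h : i < a.1
    · have e : filt a.1 ((i, b) :: w) = ((⟨i, h⟩ : Fin a.1), b) :: filt a.1 w := by
        simp [filt, h]
      rw [e, mk_cons _ (filt a.1 w), map_mul, mk_single, mk_single]
      congr 1
      cases b
      · simp only [cond_false, map_inv, toPG, FreeGroup.lift_apply_of, dif_pos h]
        rfl
      · simp only [cond_true, toPG, FreeGroup.lift_apply_of, dif_pos h]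
        rfl
    · have e : filt a.1 ((i, b) :: w) = filt a.1 w := by
        simp [filt, h]
      rw [e, mk_single]
      cases b
      · simp [toPG, h]
      · simp [toPG, h]

theorem N_le_ker_toPG (a : Pres) : N a ≤ (toPG a).ker := by
  apply N_le_ker
  · intro w hw
    rw [toPG_mk]
    exact PresentedGroup.one_of_mem ⟨w, hw, rfl⟩
  · intro i hi
    simp [toPG, not_lt.2 hi]

theorem ofPG_aux (a : Pres) (w : W) :
    FreeGroup.lift (fun i : Fin a.1 => QuotientGroup.mk' (N a) (FreeGroup.of i.1))
      (FreeGroup.mk (filt a.1 w)) = QuotientGroup.mk' (N a) (FreeGroup.mk w) := by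
  induction w with
  | nil => exact (MonoidHom.map_one _).trans (MonoidHom.map_one _).symm
  | cons q w ih =>
    rw [mk_cons q w, map_mul, ← ih]
    obtain ⟨i, b⟩ := q
    by_cases h : i < a.1
    · have e : filt a.1 ((i, b) :: w) = ((⟨i, h⟩ : Fin a.1), b) :: filt a.1 w := by
        simp [filt, h]
      rw [e, mk_cons, map_mul, mk_single, mk_single]
      congr 1
      cases b
      · simp
      · simp
    · have e : filt a.1 ((i, b) :: w) = filt a.1 w := by
        simp [filt, h]
      have h1 : QuotientGroup.mk' (N a) (FreeGroup.of i) = 1 :=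
        (QuotientGroup.eq_one_iff _).2 (of_mem_N (not_lt.1 h))
      rw [e, mk_single]
      cases b
      · simp only [cond_false, map_inv, h1]; simp
      · simp only [cond_true, h1]; simp

noncomputable def ofPG (a : Pres) : PresentedGroup (Rels a) →* FreeGroup ℕ ⧸ N a :=
  PresentedGroup.toGroup (f := fun i : Fin a.1 => QuotientGroup.mk' (N a) (FreeGroup.of i.1)) (by
    rintro _ ⟨w, hw, rfl⟩
    rw [ofPG_aux]
    exact (QuotientGroup.eq_one_iff _).2 (mem_N_of_mem hw))

noncomputable def pgEquiv (a : Pres) : PresentedGroup (Rels a) ≃* FreeGroup ℕ ⧸ N a :=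
  MonoidHom.toMulEquiv (ofPG a) (QuotientGroup.lift (N a) (toPG a) (N_le_ker_toPG a))
    (by
      apply PresentedGroup.ext
      intro x
      simp only [MonoidHom.comp_apply, MonoidHom.id_apply, ofPG, PresentedGroup.toGroup.of]
      change toPG a (FreeGroup.of x.1) = _
      simp [toPG])
    (by
      apply QuotientGroup.monoidHom_ext
      ext i
      simp only [MonoidHom.comp_apply, MonoidHom.id_apply]
      change ofPG a (toPG a (FreeGroup.of i)) = QuotientGroup.mk' (N a) (FreeGroup.of i)
      by_cases h : i < a.1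
      · simp only [toPG, FreeGroup.lift_apply_of, dif_pos h, ofPG, PresentedGroup.toGroup.of]
      · have h1 : QuotientGroup.mk' (N a) (FreeGroup.of i) = 1 :=
          (QuotientGroup.eq_one_iff _).2 (of_mem_N (not_lt.1 h))
        rw [h1]
        simp [toPG, h])


/-! ### certificates for membership in `N a` -/

/-- certificate: a list of (conjugator, relator index, sign) -/
abbrev Cert := List (W × (Bool × ℕ) × Bool)

def piece (a : Pres) (x : W × (Bool × ℕ) × Bool) : W :=
  x.1 ++ (bif x.2.2 then rel a x.2.1 else FreeGroup.invRev (rel a x.2.1)) ++ FreeGroup.invRev x.1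

def expand (a : Pres) (c : Cert) : W := c.flatMap (piece a)

theorem mk_piece (a : Pres) (x : W × (Bool × ℕ) × Bool) :
    FreeGroup.mk (piece a x) = FreeGroup.mk x.1 *
      (bif x.2.2 then FreeGroup.mk (rel a x.2.1) else (FreeGroup.mk (rel a x.2.1))⁻¹) *
      (FreeGroup.mk x.1)⁻¹ := by
  obtain ⟨u, t, b⟩ := x
  cases b
  · simp [piece, FreeGroup.inv_mk, FreeGroup.mul_mk]
  · simp [piece, FreeGroup.inv_mk, FreeGroup.mul_mk]

theorem mk_expand_cons (a : Pres) (x : W × (Bool × ℕ) × Bool) (c : Cert) :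
    FreeGroup.mk (expand a (x :: c)) = FreeGroup.mk (piece a x) * FreeGroup.mk (expand a c) := by
  rw [FreeGroup.mul_mk]; rfl

theorem mk_expand_append (a : Pres) (c d : Cert) :
    FreeGroup.mk (expand a (c ++ d)) = FreeGroup.mk (expand a c) * FreeGroup.mk (expand a d) := by
  rw [FreeGroup.mul_mk]; simp [expand]

theorem mk_expand_mem (a : Pres) (c : Cert) : FreeGroup.mk (expand a c) ∈ N a := by
  induction c with
  | nil => exact (N a).one_mem
  | cons x c ih =>
    rw [mk_expand_cons, mk_piece]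
    refine (N a).mul_mem ?_ ih
    apply Subgroup.Normal.conj_mem inferInstance
    cases x.2.2
    · exact (N a).inv_mem (mem_N_rel a _)
    · exact mem_N_rel a _

theorem exists_inv (a : Pres) (c : Cert) :
    ∃ d : Cert, FreeGroup.mk (expand a d) = (FreeGroup.mk (expand a c))⁻¹ := by
  induction c with
  | nil =>
    refine ⟨[], ?_⟩
    have h1 : FreeGroup.mk (expand a []) = 1 := rfl
    rw [h1, inv_one]
  | cons x c ih =>
    obtain ⟨d, hd⟩ := ih
    refine ⟨d ++ [(x.1, x.2.1, !x.2.2)], ?_⟩
    rw [mk_expand_append, mk_expand_cons a x c, hd, mul_inv_rev, mk_expand_cons]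
    congr 1
    rw [mk_piece, mk_piece]
    have h1 : FreeGroup.mk (expand a []) = 1 := rfl
    rw [h1, mul_one, mul_inv_rev, mul_inv_rev, inv_inv, ← mul_assoc]
    cases x.2.2
    · simp only [Bool.not_false, cond_true, cond_false, inv_inv]
    · simp only [Bool.not_true, cond_true, cond_false]

theorem exists_conj (a : Pres) (u : W) (c : Cert) :
    ∃ d : Cert, FreeGroup.mk (expand a d) =
      FreeGroup.mk u * (FreeGroup.mk (expand a c)) * (FreeGroup.mk u)⁻¹ := by
  induction c with
  | nil =>
    refine ⟨[], ?_⟩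
    have h1 : FreeGroup.mk (expand a []) = 1 := rfl
    rw [h1, mul_one, mul_inv_cancel]
  | cons x c ih =>
    obtain ⟨d, hd⟩ := ih
    refine ⟨(u ++ x.1, x.2) :: d, ?_⟩
    rw [mk_expand_cons, mk_expand_cons, hd, mk_piece, mk_piece]
    simp only [← FreeGroup.mul_mk]
    group

def certSub (a : Pres) : Subgroup (FreeGroup ℕ) where
  carrier := {g | ∃ c : Cert, g = FreeGroup.mk (expand a c)}
  one_mem' := ⟨[], rfl⟩
  mul_mem' := by
    rintro _ _ ⟨c, rfl⟩ ⟨d, rfl⟩
    exact ⟨c ++ d, (mk_expand_append a c d).symm⟩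
  inv_mem' := by
    rintro _ ⟨c, rfl⟩
    obtain ⟨d, hd⟩ := exists_inv a c
    exact ⟨d, hd.symm⟩

instance (a : Pres) : (certSub a).Normal where
  conj_mem := by
    rintro _ ⟨c, rfl⟩ g
    obtain ⟨d, hd⟩ := exists_conj a g.toWord c
    refine ⟨d, ?_⟩
    rw [hd, FreeGroup.mk_toWord]

theorem mem_N_iff (a : Pres) (w : W) :
    FreeGroup.mk w ∈ N a ↔
      ∃ c : Cert, FreeGroup.reduce w = FreeGroup.reduce (expand a c) := by
  constructor
  · intro h
    have h2 : N a ≤ certSub a := by
      apply Subgroup.normalClosure_le_normal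
      rintro _ ⟨t, rfl⟩
      refine ⟨[([], t, true)], ?_⟩
      rw [mk_expand_cons, mk_piece]
      have h1 : FreeGroup.mk (expand a []) = 1 := rfl
      have h3 : FreeGroup.mk ([] : W) = 1 := rfl
      rw [h1]
      simp [h3]
    obtain ⟨c, hc⟩ := h2 h
    exact ⟨c, FreeGroup.reduce.sound hc⟩
  · rintro ⟨c, hc⟩
    rw [FreeGroup.reduce.exact hc]
    exact mk_expand_mem a c

/-! ### substitution and the certificate for isomorphism -/

def subst (U : List W) (w : W) : W :=
  w.flatMap (fun q => bif q.2 then U.getD q.1 [] else FreeGroup.invRev (U.getD q.1 []))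

def sig (U : List W) : FreeGroup ℕ →* FreeGroup ℕ :=
  FreeGroup.lift (fun i => FreeGroup.mk (U.getD i []))

theorem mk_subst (U : List W) (w : W) :
    FreeGroup.mk (subst U w) = sig U (FreeGroup.mk w) := by
  induction w with
  | nil => rfl
  | cons q w ih =>
    have e : subst U (q :: w) =
      (bif q.2 then U.getD q.1 [] else FreeGroup.invRev (U.getD q.1 [])) ++ subst U w := by
      simp [subst]
    rw [e, ← FreeGroup.mul_mk, ih, mk_cons q w, map_mul]
    congr 1
    obtain ⟨i, b⟩ := q
    rw [mk_single]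
    cases b
    · simp only [cond_false, sig, map_inv, FreeGroup.lift_apply_of, FreeGroup.inv_mk]
    · simp only [cond_true, sig, FreeGroup.lift_apply_of]

/-- words over the generators of `b` which have to be trivial in `G(b)`;
`U` = images of the generators of `a`, `V` = images of the generators of `b`. -/
def need (a b : Pres) (U V : List W) : List W :=
  a.2.map (subst U) ++
    (List.range b.1).map (fun j => subst U (V.getD j []) ++ [(j, false)])

theorem mk_need (U V : List W) (j : ℕ) :
    FreeGroup.mk (subst U (V.getD j []) ++ [(j, false)]) =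
      sig U (sig V (FreeGroup.of j)) * (FreeGroup.of j)⁻¹ := by
  rw [← FreeGroup.mul_mk, mk_subst, mk_single]
  simp [sig]

def Good (a b : Pres) (U V : List W) : Prop :=
  U.length ≤ a.1 ∧ V.length ≤ b.1 ∧
    (∀ w ∈ need a b U V, FreeGroup.mk w ∈ N b) ∧ (∀ w ∈ need b a V U, FreeGroup.mk w ∈ N a)

theorem sig_of_ge {U : List W} {i : ℕ} (h : U.length ≤ i) : sig U (FreeGroup.of i) = 1 := by
  simp only [sig, FreeGroup.lift_apply_of, List.getD_eq_default _ _ h]
  rfl

theorem good_kills {a b : Pres} {U V : List W} (h : Good a b U V) :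
    N a ≤ ((QuotientGroup.mk' (N b)).comp (sig U)).ker := by
  apply N_le_ker
  · intro w hw
    simp only [MonoidHom.comp_apply]
    rw [← mk_subst]
    exact (QuotientGroup.eq_one_iff _).2 (h.2.2.1 _ (by
      simp only [need, List.mem_append, List.mem_map]
      exact Or.inl ⟨w, hw, rfl⟩))
  · intro i hi
    simp only [MonoidHom.comp_apply]
    rw [sig_of_ge (h.1.trans hi), map_one]

theorem Good.symm {a b : Pres} {U V : List W} (h : Good a b U V) : Good b a V U :=
  ⟨h.2.1, h.1, h.2.2.2, h.2.2.1⟩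

theorem good_inv {a b : Pres} {U V : List W} (h : Good a b U V) (j : ℕ) :
    QuotientGroup.mk' (N b) (sig U (sig V (FreeGroup.of j))) =
      QuotientGroup.mk' (N b) (FreeGroup.of j) := by
  by_cases hj : j < b.1
  · have := h.2.2.1 (subst U (V.getD j []) ++ [(j, false)]) (by
      simp only [need, List.mem_append, List.mem_map, List.mem_range]
      exact Or.inr ⟨j, hj, rfl⟩)
    rw [mk_need] at this
    have h2 : QuotientGroup.mk' (N b) (sig U (sig V (FreeGroup.of j)) * (FreeGroup.of j)⁻¹) = 1 :=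
      (QuotientGroup.eq_one_iff _).2 this
    rw [map_mul, map_inv] at h2
    exact mul_inv_eq_one.1 h2
  · have h1 : QuotientGroup.mk' (N b) (FreeGroup.of j) = 1 :=
      (QuotientGroup.eq_one_iff _).2 (of_mem_N (not_lt.1 hj))
    rw [h1, sig_of_ge (h.2.1.trans (not_lt.1 hj)), map_one, map_one]

noncomputable def goodHom {a b : Pres} {U V : List W} (h : Good a b U V) :
    FreeGroup ℕ ⧸ N a →* FreeGroup ℕ ⧸ N b :=
  QuotientGroup.lift (N a) ((QuotientGroup.mk' (N b)).comp (sig U)) (good_kills h)

theorem goodHom_mk {a b : Pres} {U V : List W} (h : Good a b U V) (g : FreeGroup ℕ) :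
    goodHom h (QuotientGroup.mk' (N a) g) = QuotientGroup.mk' (N b) (sig U g) := rfl

theorem goodHom_comp {a b : Pres} {U V : List W} (h : Good a b U V) :
    (goodHom h).comp (goodHom h.symm) = MonoidHom.id _ := by
  apply QuotientGroup.monoidHom_ext
  ext j
  simp only [MonoidHom.comp_apply, MonoidHom.id_apply]
  rw [goodHom_mk, goodHom_mk, good_inv h]

theorem iso_of_good {a b : Pres} {U V : List W} (h : Good a b U V) :
    Nonempty (FreeGroup ℕ ⧸ N a ≃* FreeGroup ℕ ⧸ N b) :=
  ⟨MonoidHom.toMulEquiv (goodHom h) (goodHom h.symm) (goodHom_comp h.symm) (goodHom_comp h)⟩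

theorem exists_lift {a b : Pres} (e : FreeGroup ℕ ⧸ N a →* FreeGroup ℕ ⧸ N b) :
    ∃ U : List W, U.length = a.1 ∧
      ∀ g, QuotientGroup.mk' (N b) (sig U g) = e (QuotientGroup.mk' (N a) g) := by
  have hs : ∀ i : ℕ, ∃ w : W, QuotientGroup.mk' (N b) (FreeGroup.mk w) =
      e (QuotientGroup.mk' (N a) (FreeGroup.of i)) := by
    intro i
    obtain ⟨g, hg⟩ := QuotientGroup.mk'_surjective (N b) (e (QuotientGroup.mk' (N a) (FreeGroup.of i)))
    exact ⟨g.toWord, by rw [FreeGroup.mk_toWord, hg]⟩
  choose f hf using hs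
  refine ⟨(List.range a.1).map f, by simp, ?_⟩
  intro g
  have key : (QuotientGroup.mk' (N b)).comp (sig ((List.range a.1).map f)) =
      e.comp (QuotientGroup.mk' (N a)) := by
    ext i
    simp only [MonoidHom.comp_apply]
    by_cases hi : i < a.1
    · rw [← hf i]
      congr 1
      simp [sig, hi]
    · have h1 : QuotientGroup.mk' (N a) (FreeGroup.of i) = 1 :=
        (QuotientGroup.eq_one_iff _).2 (of_mem_N (not_lt.1 hi))
      rw [h1, map_one, sig_of_ge (by simpa using hi), map_one]
  exact DFunLike.congr_fun key g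

theorem good_half {a b : Pres} (e : FreeGroup ℕ ⧸ N a →* FreeGroup ℕ ⧸ N b)
    (e' : FreeGroup ℕ ⧸ N b →* FreeGroup ℕ ⧸ N a) (hee : ∀ x, e (e' x) = x) {U V : List W}
    (hU : ∀ g, QuotientGroup.mk' (N b) (sig U g) = e (QuotientGroup.mk' (N a) g))
    (hV : ∀ g, QuotientGroup.mk' (N a) (sig V g) = e' (QuotientGroup.mk' (N b) g)) :
    ∀ w ∈ need a b U V, FreeGroup.mk w ∈ N b := by
  intro w hw
  simp only [need, List.mem_append, List.mem_map, List.mem_range] at hw
  rcases hw with ⟨w, hw, rfl⟩ | ⟨j, hj, rfl⟩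
  · rw [mk_subst]
    apply (QuotientGroup.eq_one_iff _).1
    change QuotientGroup.mk' (N b) (sig U (FreeGroup.mk w)) = 1
    rw [hU]
    have h1 : QuotientGroup.mk' (N a) (FreeGroup.mk w) = 1 :=
      (QuotientGroup.eq_one_iff _).2 (mem_N_of_mem hw)
    rw [h1, map_one]
  · rw [mk_need]
    apply (QuotientGroup.eq_one_iff _).1
    change QuotientGroup.mk' (N b) (sig U (sig V (FreeGroup.of j)) * (FreeGroup.of j)⁻¹) = 1
    rw [map_mul, map_inv, hU, hV, hee, mul_inv_cancel]

theorem iso_iff_good (a b : Pres) :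
    Nonempty (PresentedGroup (Rels a) ≃* PresentedGroup (Rels b)) ↔ ∃ U V, Good a b U V := by
  constructor
  · rintro ⟨e⟩
    let e0 : FreeGroup ℕ ⧸ N a ≃* FreeGroup ℕ ⧸ N b :=
      ((pgEquiv a).symm.trans e).trans (pgEquiv b)
    obtain ⟨U, hU1, hU⟩ := exists_lift e0.toMonoidHom
    obtain ⟨V, hV1, hV⟩ := exists_lift e0.symm.toMonoidHom
    refine ⟨U, V, hU1.le, hV1.le, ?_, ?_⟩
    · exact good_half e0.toMonoidHom e0.symm.toMonoidHom (fun x => e0.apply_symm_apply x) hU hV
    · exact good_half e0.symm.toMonoidHom e0.toMonoidHom (fun x => e0.symm_apply_apply x) hV hU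
  · rintro ⟨U, V, h⟩
    obtain ⟨e⟩ := iso_of_good h
    exact ⟨((pgEquiv a).trans e).trans (pgEquiv b).symm⟩

/-! ### the computable check -/

theorem forall_mem_iff (a : Pres) (l : List W) :
    (∀ w ∈ l, FreeGroup.mk w ∈ N a) ↔ ∃ C : List Cert,
      l.map FreeGroup.reduce = C.map (fun c => FreeGroup.reduce (expand a c)) := by
  induction l with
  | nil =>
    refine ⟨fun _ => ⟨[], rfl⟩, fun _ => by simp⟩
  | cons w l ih =>
    rw [List.forall_mem_cons, ih, mem_N_iff]
    constructor
    · rintro ⟨⟨c, hc⟩, C, hC⟩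
      exact ⟨c :: C, by simp [hc, hC]⟩
    · rintro ⟨C, hC⟩
      cases C with
      | nil => simp at hC
      | cons c C =>
        simp only [List.map_cons, List.cons.injEq] at hC
        exact ⟨⟨c, hC.1⟩, C, hC.2⟩

/-- the certificate type -/
abbrev CC := (List W × List W) × (List Cert × List Cert)

def Chk (p : Pres × Pres) (c : CC) : Prop :=
  (c.1.1.length ≤ p.1.1 ∧ c.1.2.length ≤ p.2.1) ∧
  ((need p.1 p.2 c.1.1 c.1.2).map FreeGroup.reduce =
    c.2.1.map (fun d => FreeGroup.reduce (expand p.2 d))) ∧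
  ((need p.2 p.1 c.1.2 c.1.1).map FreeGroup.reduce =
    c.2.2.map (fun d => FreeGroup.reduce (expand p.1 d)))

instance : ∀ p c, Decidable (Chk p c) := fun p c => by unfold Chk; infer_instance

theorem iso_iff_chk (a b : Pres) :
    Nonempty (PresentedGroup (Rels a) ≃* PresentedGroup (Rels b)) ↔ ∃ c : CC, Chk (a, b) c := by
  rw [iso_iff_good]
  constructor
  · rintro ⟨U, V, h1, h2, h3, h4⟩
    obtain ⟨C, hC⟩ := (forall_mem_iff _ _).1 h3
    obtain ⟨D, hD⟩ := (forall_mem_iff _ _).1 h4
    exact ⟨((U, V), (C, D)), ⟨h1, h2⟩, hC, hD⟩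
  · rintro ⟨⟨⟨U, V⟩, ⟨C, D⟩⟩, ⟨h1, h2⟩, hC, hD⟩
    exact ⟨U, V, h1, h2, (forall_mem_iff _ _).2 ⟨C, hC⟩, (forall_mem_iff _ _).2 ⟨D, hD⟩⟩


/-! ### primitive recursiveness -/

open Primrec in
theorem pr_invRev : Primrec (FreeGroup.invRev : W → W) :=
  list_reverse.comp (list_map .id
    ((pair (fst.comp snd) (Primrec.not.comp (snd.comp snd))).to₂))

open Primrec in
theorem pr_rel : Primrec₂ rel := by
  have h : Primrec (fun x : Pres × (Bool × ℕ) =>
      bif x.2.1 then x.1.2.getD x.2.2 [] else [(x.1.1 + x.2.2, true)]) :=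
    Primrec.cond (fst.comp snd) ((list_getD []).comp (snd.comp fst) (snd.comp snd))
      (list_cons.comp (pair (nat_add.comp (fst.comp fst) (snd.comp snd)) (Primrec.const true))
        (Primrec.const []))
  exact h

/-- one step of reduction -/
def rstep (x : ℕ × Bool) (l : W) : W :=
  List.casesOn l [x] fun hd tl => if x.1 = hd.1 ∧ x.2 = not hd.2 then tl else x :: hd :: tl

theorem reduce_eq_foldr (w : W) : FreeGroup.reduce w = w.foldr rstep [] := by
  induction w with
  | nil => rfl
  | cons x w ih =>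
    rw [FreeGroup.reduce.cons, ih]; rfl

open Primrec in
theorem pr_rstep : Primrec₂ rstep := by
  have h : Primrec (fun y : (ℕ × Bool) × W =>
      @List.casesOn (ℕ × Bool) (fun _ => W) y.2 [y.1]
        (fun hd tl => if y.1.1 = hd.1 ∧ y.1.2 = not hd.2 then tl else y.1 :: hd :: tl)) := by
    refine list_casesOn (h := fun (y : (ℕ × Bool) × W) (z : (ℕ × Bool) × W) =>
      if y.1.1 = z.1.1 ∧ y.1.2 = not z.1.2 then z.2 else y.1 :: z.1 :: z.2) snd
      (list_cons.comp fst (Primrec.const [])) ?_
    refine Primrec.ite (PrimrecPred.and ?_ ?_) (snd.comp snd)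
      (list_cons.comp (fst.comp fst) (list_cons.comp (fst.comp snd) (snd.comp snd)))
    · exact Primrec.eq.comp (fst.comp (fst.comp fst)) (fst.comp (fst.comp snd))
    · exact Primrec.eq.comp (snd.comp (fst.comp fst)) (Primrec.not.comp (snd.comp (fst.comp snd)))
  exact h

open Primrec in
theorem pr_reduce : Primrec (FreeGroup.reduce : W → W) :=
  (list_foldr .id (Primrec.const []) ((pr_rstep.comp (fst.comp snd) (snd.comp snd)).to₂)).of_eq
    (fun w => (reduce_eq_foldr w).symm)

open Primrec in
theorem pr_piece : Primrec₂ piece := by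
  have h : Primrec (fun y : Pres × (W × (Bool × ℕ) × Bool) =>
      y.2.1 ++ (bif y.2.2.2 then rel y.1 y.2.2.1 else FreeGroup.invRev (rel y.1 y.2.2.1)) ++
        FreeGroup.invRev y.2.1) := by
    have hr : Primrec (fun y : Pres × (W × (Bool × ℕ) × Bool) => rel y.1 y.2.2.1) :=
      pr_rel.comp fst (fst.comp (snd.comp snd))
    exact list_append.comp (list_append.comp (fst.comp snd)
      (Primrec.cond (snd.comp (snd.comp snd)) hr (pr_invRev.comp hr)))
      (pr_invRev.comp (fst.comp snd))
  exact h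

open Primrec in
theorem pr_expand : Primrec₂ expand := by
  have h : Primrec (fun y : Pres × Cert => y.2.flatMap (piece y.1)) :=
    list_flatMap snd ((pr_piece.comp (fst.comp fst) snd).to₂)
  exact h

open Primrec in
theorem pr_subst : Primrec₂ subst := by
  have hg : Primrec (fun z : (List W × W) × (ℕ × Bool) => z.1.1.getD z.2.1 []) :=
    (list_getD []).comp (fst.comp fst) (fst.comp snd)
  have h : Primrec (fun y : List W × W => y.2.flatMap
      (fun q => bif q.2 then y.1.getD q.1 [] else FreeGroup.invRev (y.1.getD q.1 []))) :=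
    list_flatMap snd ((Primrec.cond (snd.comp snd) hg (pr_invRev.comp hg)).to₂)
  exact h

open Primrec in
theorem pr_need : Primrec (fun y : (Pres × Pres) × (List W × List W) =>
    need y.1.1 y.1.2 y.2.1 y.2.2) := by
  have e1 : Primrec (fun y : (Pres × Pres) × (List W × List W) => y.1.1.2) :=
    snd.comp (fst.comp fst)
  have e2 : Primrec (fun y : (Pres × Pres) × (List W × List W) => List.range y.1.2.1) :=
    list_range.comp (fst.comp (snd.comp fst))
  have f1 : Primrec₂ (fun (y : (Pres × Pres) × (List W × List W)) (w : W) =>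
      subst y.2.1 w) := (pr_subst.comp (fst.comp (snd.comp fst)) snd).to₂
  have u1 : Primrec (fun z : ((Pres × Pres) × (List W × List W)) × ℕ => z.1.2.1) :=
    fst.comp (snd.comp fst)
  have u2 : Primrec (fun z : ((Pres × Pres) × (List W × List W)) × ℕ => z.1.2.2) :=
    snd.comp (snd.comp fst)
  have u3 : Primrec (fun z : ((Pres × Pres) × (List W × List W)) × ℕ => z.1.2.2.getD z.2 []) :=
    (list_getD []).comp u2 snd
  have u4 : Primrec (fun z : ((Pres × Pres) × (List W × List W)) × ℕ => [(z.2, false)]) :=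
    list_cons.comp (pair snd (Primrec.const false)) (Primrec.const [])
  have f2 : Primrec₂ (fun (y : (Pres × Pres) × (List W × List W)) (j : ℕ) =>
      subst y.2.1 (y.2.2.getD j []) ++ [(j, false)]) :=
    (list_append.comp (pr_subst.comp u1 u3) u4).to₂
  exact list_append.comp (list_map e1 f1) (list_map e2 f2)

open Primrec in
theorem pr_expands : Primrec (fun y : Pres × List Cert =>
    y.2.map (fun d => FreeGroup.reduce (expand y.1 d))) :=
  list_map snd ((pr_reduce.comp (pr_expand.comp (fst.comp fst) snd)).to₂)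

open Primrec in
theorem pr_needs : Primrec (fun y : (Pres × Pres) × (List W × List W) =>
    (need y.1.1 y.1.2 y.2.1 y.2.2).map FreeGroup.reduce) :=
  list_map pr_need ((pr_reduce.comp snd).to₂)

set_option maxHeartbeats 4000000 in
open Primrec in
theorem pr_chk : PrimrecPred (fun y : (Pres × Pres) × CC => Chk y.1 y.2) := by
  have a1 : Primrec (fun y : (Pres × Pres) × CC => y.1.1) := fst.comp fst
  have a2 : Primrec (fun y : (Pres × Pres) × CC => y.1.2) := snd.comp fst
  have c1 : Primrec (fun y : (Pres × Pres) × CC => y.2.1) := fst.comp snd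
  have c2 : Primrec (fun y : (Pres × Pres) × CC => y.2.2) := snd.comp snd
  have c11 : Primrec (fun y : (Pres × Pres) × CC => y.2.1.1) := fst.comp c1
  have c12 : Primrec (fun y : (Pres × Pres) × CC => y.2.1.2) := snd.comp c1
  have c21 : Primrec (fun y : (Pres × Pres) × CC => y.2.2.1) := fst.comp c2
  have c22 : Primrec (fun y : (Pres × Pres) × CC => y.2.2.2) := snd.comp c2
  have b1 : PrimrecPred (fun y : (Pres × Pres) × CC => y.2.1.1.length ≤ y.1.1.1) :=
    nat_le.comp (list_length.comp c11) (fst.comp a1)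
  have b2 : PrimrecPred (fun y : (Pres × Pres) × CC => y.2.1.2.length ≤ y.1.2.1) :=
    nat_le.comp (list_length.comp c12) (fst.comp a2)
  have n1 : Primrec (fun y : (Pres × Pres) × CC =>
      (need y.1.1 y.1.2 y.2.1.1 y.2.1.2).map FreeGroup.reduce) :=
    pr_needs.comp (pair fst c1)
  have n2 : Primrec (fun y : (Pres × Pres) × CC =>
      (need y.1.2 y.1.1 y.2.1.2 y.2.1.1).map FreeGroup.reduce) :=
    pr_needs.comp (pair (pair a2 a1) (pair c12 c11))
  have m1 : Primrec (fun y : (Pres × Pres) × CC =>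
      y.2.2.1.map (fun d => FreeGroup.reduce (expand y.1.2 d))) :=
    pr_expands.comp (pair a2 c21)
  have m2 : Primrec (fun y : (Pres × Pres) × CC =>
      y.2.2.2.map (fun d => FreeGroup.reduce (expand y.1.1 d))) :=
    pr_expands.comp (pair a1 c22)
  exact PrimrecPred.and (PrimrecPred.and b1 b2)
    (PrimrecPred.and (Primrec.eq.comp n1 m1) (Primrec.eq.comp n2 m2))

/-- projection of a primitive recursive relation is recursively enumerable -/
theorem re_exists {α γ : Type} [Primcodable α] [Primcodable γ] (P : α → γ → Prop)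
    [∀ a c, Decidable (P a c)] (hP : PrimrecPred (fun y : α × γ => P y.1 y.2)) :
    REPred (fun a => ∃ c, P a c) := by
  let f : α → ℕ → Option Unit := fun a n =>
    (Encodable.decode (α := γ) n).bind (fun c => if P a c then some () else none)
  have hf : Primrec₂ f := by
    have h0 : Primrec (fun z : (α × ℕ) × γ => (z.1.1, z.2)) :=
      Primrec.pair (Primrec.fst.comp Primrec.fst) Primrec.snd
    have h1 : PrimrecPred (fun z : (α × ℕ) × γ => P z.1.1 z.2) := hP.comp h0
    have h2 : Primrec₂ (fun (y : α × ℕ) (c : γ) => if P y.1 c then some () else none) :=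
      (Primrec.ite h1 (Primrec.const (some ())) (Primrec.const none)).to₂
    exact Primrec.option_bind (Primrec.decode.comp Primrec.snd) h2
  have h2 : Partrec (fun a => Nat.rfindOpt (f a)) := Partrec.rfindOpt hf.to_comp
  refine h2.dom_re.of_eq (fun a => ?_)
  rw [Nat.rfindOpt_dom]
  constructor
  · rintro ⟨n, u, hu⟩
    simp only [f, Option.mem_def, Option.bind_eq_some_iff] at hu
    obtain ⟨c, _, hc2⟩ := hu
    by_cases h : P a c
    · exact ⟨c, h⟩
    · simp [h] at hc2
  · rintro ⟨c, hc⟩
    exact ⟨Encodable.encode c, (), by simp [f, hc]⟩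

theorem iso_re' : REPred (fun p : Pres × Pres =>
    Nonempty (PresentedGroup (Rels p.1) ≃* PresentedGroup (Rels p.2))) :=
  (re_exists Chk pr_chk).of_eq (fun p => (iso_iff_chk p.1 p.2).symm)

theorem iso_re
    (E : ℕ × List (List (ℕ × Bool)) → ℕ × List (List (ℕ × Bool)) → Prop)
    (hE : ∀ a b, E a b ↔ Nonempty (PresentedGroup {g : FreeGroup (Fin a.1) | ∃ w ∈ a.2,
        g = FreeGroup.mk (w.filterMap (fun q => if h : q.1 < a.1 then
          some ((⟨q.1, h⟩ : Fin a.1), q.2) else none))} ≃*
      PresentedGroup {g : FreeGroup (Fin b.1) | ∃ w ∈ b.2,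
        g = FreeGroup.mk (w.filterMap (fun q => if h : q.1 < b.1 then
          some ((⟨q.1, h⟩ : Fin b.1), q.2) else none))})) :
    REPred (fun p : (ℕ × List (List (ℕ × Bool))) × (ℕ × List (List (ℕ × Bool))) =>
      E p.1 p.2) :=
  iso_re'.of_eq (fun p => (hE p.1 p.2).symm)

end Pool.Agent.H377R3.IsoRE
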